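import Mathlib

/-!
# Project SF (MP_d5570f_nt), piece SF-5: the number of primes in `(x / 4, x]`.
-/

open Finset

namespace Pool.Agent.Helper94.SF

private theorem sf5_aux (x : ℕ) (hx : 10 ^ 8 ≤ x) :
    (x : ℝ) / 4 + Real.log 4 * ((x : ℝ) / 4) ≤
      x * Real.log 2 - Real.log (x + 1) - 2 * √(x : ℝ) * Real.log x := by
  have hx1 : ((10 : ℝ) ^ 8) ≤ (x : ℝ) := by exact_mod_cast hx
  have hxpos : (0 : ℝ) < x := by linarith
  set s : ℝ := √(x : ℝ) with hs
  set y : ℝ := √s with hy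
  have hs0 : 0 ≤ s := Real.sqrt_nonneg _
  have hss : s * s = x := Real.mul_self_sqrt hxpos.le
  have hyy : y * y = s := Real.mul_self_sqrt hs0
  have hy0 : 0 ≤ y := Real.sqrt_nonneg _
  have hs4 : (10 : ℝ) ^ 4 ≤ s := by
    rw [hs]
    apply Real.le_sqrt_of_sq_le
    have h0 : ((10 : ℝ) ^ 4) ^ 2 = 10 ^ 8 := by norm_num
    rw [h0]
    exact hx1
  have hy100 : (100 : ℝ) ≤ y := by
    rw [hy]
    apply Real.le_sqrt_of_sq_le
    have h0 : ((100 : ℝ)) ^ 2 = 10 ^ 4 := by norm_num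
    rw [h0]
    exact hs4
  have hypos : 0 < y := by linarith
  have hxy : (x : ℝ) = y ^ 4 := by
    rw [← hss, ← hyy]; ring
  have hlogx : Real.log x = 4 * Real.log y := by
    rw [hxy, Real.log_pow]; norm_num
  have hlogy : Real.log y ≤ y - 1 := Real.log_le_sub_one_of_pos hypos
  have hlogy0 : 0 ≤ Real.log y := Real.log_nonneg (by linarith)
  have hl2 : Real.log 2 < 0.6931471808 := Real.log_two_lt_d9
  have hl2' : 0.6931471803 < Real.log 2 := Real.log_two_gt_d9
  have hl4 : Real.log 4 = 2 * Real.log 2 := by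
    rw [show (4 : ℝ) = 2 ^ 2 by norm_num, Real.log_pow]; norm_num
  have hlog1 : Real.log (x + 1) ≤ 4 * y := by
    calc Real.log (x + 1) ≤ Real.log (2 * x) := by
          apply Real.log_le_log (by linarith) (by linarith)
      _ = Real.log 2 + Real.log x := Real.log_mul (by norm_num) hxpos.ne'
      _ ≤ 4 * y := by rw [hlogx]; linarith
  have hlog2 : 2 * s * Real.log x ≤ 8 * y ^ 3 := by
    rw [hlogx, ← hyy]
    have : Real.log y ≤ y := by linarith
    calc 2 * (y * y) * (4 * Real.log y) = 8 * y ^ 2 * Real.log y := by ring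
      _ ≤ 8 * y ^ 2 * y := by gcongr
      _ = 8 * y ^ 3 := by ring
  have hmain : 4 * y + 8 * y ^ 3 ≤ 0.09 * y ^ 4 := by
    have h3 : 0 ≤ y ^ 3 := by positivity
    have h4 : y ≤ y ^ 3 := by nlinarith
    have h5 : 100 * y ^ 3 ≤ y ^ 4 := by
      calc 100 * y ^ 3 ≤ y * y ^ 3 := by gcongr
        _ = y ^ 4 := by ring
    nlinarith [sq_nonneg y, mul_nonneg hy0 hy0]
  rw [hl4]
  rw [hxy] at *
  nlinarith [pow_pos hypos 4]

theorem primes_count : ∃ x₀ : ℕ, ∀ x : ℕ, x₀ ≤ x →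
    (x : ℝ) / (4 * Real.log x)
      ≤ (((Finset.Icc 1 x).filter (fun p => p.Prime ∧ x < 4 * p)).card : ℝ) := by
  refine ⟨10 ^ 8, fun x hx => ?_⟩
  have hx1 : ((10 : ℝ) ^ 8) ≤ (x : ℝ) := by exact_mod_cast hx
  have hxpos : (0 : ℝ) < x := by linarith
  have hlogpos : 0 < Real.log x := Real.log_pos (by linarith)
  set S := (Finset.Icc 1 x).filter (fun p => p.Prime ∧ x < 4 * p) with hS
  -- theta x = theta (x/4) + sum over S
  have h1 : Chebyshev.theta (x : ℝ) = Chebyshev.theta ((x : ℝ) / 4) + ∑ p ∈ S, Real.log p := by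
    have hfl : ⌊(x : ℝ)⌋₊ = x := Nat.floor_natCast x
    have hfl4 : ⌊(x : ℝ) / 4⌋₊ = x / 4 := by
      have := Nat.floor_div_natCast (x : ℝ) 4
      rw [Nat.floor_natCast] at this
      exact_mod_cast this
    unfold Chebyshev.theta
    rw [hfl, hfl4, ← Finset.sum_union]
    · apply Finset.sum_congr _ (fun _ _ => rfl)
      ext p
      simp only [hS, mem_filter, mem_Ioc, mem_union, mem_Icc]
      constructor
      · rintro ⟨⟨h1, h2⟩, h3⟩
        by_cases h : p ≤ x / 4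
        · left; exact ⟨⟨h1, h⟩, h3⟩
        · right; exact ⟨⟨h1, h2⟩, h3, by omega⟩
      · rintro (⟨⟨h1, h2⟩, h3⟩ | ⟨⟨h1, h2⟩, h3, h4⟩)
        · exact ⟨⟨h1, by omega⟩, h3⟩
        · exact ⟨⟨h1, h2⟩, h3⟩
    · rw [Finset.disjoint_left]
      intro p hp hq
      simp only [hS, mem_filter, mem_Ioc, mem_Icc] at hp hq
      omega
  have h2 : ∑ p ∈ S, Real.log p ≤ S.card * Real.log x := by
    rw [← nsmul_eq_mul]
    apply Finset.sum_le_card_nsmul
    intro p hp
    simp only [hS, mem_filter, mem_Icc] at hp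
    apply Real.log_le_log
    · exact_mod_cast hp.1.1
    · exact_mod_cast hp.1.2
  have h3 : (x : ℝ) * Real.log 2 - Real.log (x + 1) - 2 * √(x : ℝ) * Real.log x
      ≤ Chebyshev.theta (x : ℝ) := Chebyshev.theta_ge x
  have h4 : Chebyshev.theta ((x : ℝ) / 4) ≤ Real.log 4 * ((x : ℝ) / 4) :=
    Chebyshev.theta_le_log4_mul_x (by positivity)
  have h5 := sf5_aux x hx
  have h6 : (x : ℝ) / 4 ≤ S.card * Real.log x := by linarith
  rw [div_le_iff₀ (by positivity)]
  linarith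

end Pool.Agent.Helper94.SF
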